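import Pool.Agent.helper96.PP2.SpecC

set_option autoImplicit false

namespace Pool.Agent.PP2

open Topology Matrix

theorem UBA_ent {R : Type} [CommRing R] [TopologicalSpace R] [IsTopologicalRing R] (p : ℕ)
    (J : Ideal R) (hS : Setup p R J) (W : Set (M2 R)) (hW : W ∈ 𝓝 (1 : M2 R)) :
    ∃ I : Ideal R, IsOpen (I : Set R) ∧ ∀ M : M2 R, (∀ i j, (M - 1) i j ∈ I) → M ∈ W := by
  have h1 : {N : M2 R | N + 1 ∈ W} ∈ 𝓝 (0 : M2 R) := by
    have hc : Continuous (fun N : M2 R => N + 1) := continuous_id.add continuous_const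
    exact hc.continuousAt.preimage_mem_nhds (by simpa using hW)
  have e1 : 𝓝 (0 : M2 R) = Filter.pi (fun i => 𝓝 ((0 : M2 R) i)) := nhds_pi
  rw [e1] at h1
  obtain ⟨I1, -, t, ht, hsub⟩ := Filter.mem_pi.1 h1
  have h2 : ∀ i : Fin 2, ∃ V ∈ 𝓝 (0 : R), ∀ v : Fin 2 → R, (∀ j, v j ∈ V) → v ∈ t i := by
    intro i
    have h3 := ht i
    have e2 : 𝓝 ((0 : M2 R) i) = Filter.pi (fun j => 𝓝 ((0 : M2 R) i j)) := nhds_pi
    rw [e2] at h3
    obtain ⟨I2, -, s, hs, hsub2⟩ := Filter.mem_pi.1 h3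
    refine ⟨s 0 ∩ s 1, Filter.inter_mem (hs 0) (hs 1), ?_⟩
    intro v hv
    apply hsub2
    intro j _
    fin_cases j
    · exact (hv 0).1
    · exact (hv 1).2
  obtain ⟨V0, hV0, hV0'⟩ := h2 0
  obtain ⟨V1, hV1, hV1'⟩ := h2 1
  obtain ⟨I, hIo, hI⟩ := hS.basis (V0 ∩ V1) (Filter.inter_mem hV0 hV1)
  refine ⟨I, hIo, ?_⟩
  intro M hM
  have h4 : M - 1 ∈ {N : M2 R | N + 1 ∈ W} := by
    apply hsub
    intro i _
    fin_cases i
    · exact hV0' _ (fun j => (hI (hM 0 j)).1)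
    · exact hV1' _ (fun j => (hI (hM 1 j)).2)
  have h5 : M - 1 + 1 ∈ W := h4
  rwa [sub_add_cancel] at h5

theorem UBA_row (hSQU : SQU_stmt) (hSUB : SUB_stmt) (hPMV : PMV_stmt) : UBA_stmt := by
  intro p R _ _ _ _ _ _ J hp hp2 hS V hV U hU
  have h0 : ∃ W1 ∈ 𝓝 (1 : M2 R), ∃ W2 ∈ 𝓝 (1 : M2 R), ∀ g : GL (Fin 2) R,
      (g : M2 R) ∈ W1 → ((g⁻¹ : GL (Fin 2) R) : M2 R) ∈ W2 → g ∈ U := by
    have hi : Topology.IsInducing (Units.embedProduct (M2 R)) := Units.isInducing_embedProduct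
    rw [hi.nhds_eq_comap, Filter.mem_comap] at hU
    obtain ⟨T, hT, hTU⟩ := hU
    rw [map_one] at hT
    have e : 𝓝 (1 : M2 R × (M2 R)ᵐᵒᵖ) = 𝓝 (1 : M2 R) ×ˢ 𝓝 (1 : (M2 R)ᵐᵒᵖ) := nhds_prod_eq
    rw [e, Filter.mem_prod_iff] at hT
    obtain ⟨W1, hW1, W2, hW2, hsub⟩ := hT
    refine ⟨W1, hW1, MulOpposite.op ⁻¹' W2, ?_, ?_⟩
    · exact MulOpposite.continuous_op.continuousAt.preimage_mem_nhds (by simpa using hW2)
    · intro g h1 h2
      apply hTU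
      apply hsub
      exact ⟨h1, h2⟩
  obtain ⟨W1, hW1, W2, hW2, hW⟩ := h0
  obtain ⟨I1, hI1o, hI1⟩ := UBA_ent p J hS W1 hW1
  obtain ⟨I2, hI2o, hI2⟩ := UBA_ent p J hS W2 hW2
  obtain ⟨n1, hn1⟩ := hS.nil I1 hI1o
  obtain ⟨n2, hn2⟩ := hS.nil I2 hI2o
  refine ⟨max n1 n2, ?_⟩
  intro g hg
  have hm1 : (p : R) ^ (max n1 n2) ∈ I1 :=
    hn1 (Ideal.pow_le_pow_right (le_max_left _ _) (Ideal.pow_mem_pow hS.pmem _))
  have hm2 : (p : R) ^ (max n1 n2) ∈ I2 :=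
    hn2 (Ideal.pow_le_pow_right (le_max_right _ _) (Ideal.pow_mem_pow hS.pmem _))
  have hA := (hPMV p R J hp hp2 hS V hV (max n1 n2) (max n1 n2) le_rfl).1
  have hg2 := (((hSUB p R J hp hp2 hS).2 _ hA).1 g).1 hg
  obtain ⟨hgS, hgT⟩ := hg2
  obtain ⟨X, hX, hXe⟩ := hgT
  have hTH : TH g = ((p : R) ^ (max n1 n2)) • X := hXe.symm
  have hh := Lib_half (R := R)
  have hxJ : ⅟(2 : R) * (ht g - 1) ∈ J := J.mul_mem_left _ (Lib_ht_sub_one J g hgS)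
  obtain ⟨y, hy, hxy, -⟩ := (hSQU p R J hp hp2 hS).1 _ hxJ
  have hsq := Lib_ht_sq J g hgS
  have key : ∀ I : Ideal R, (p : R) ^ (max n1 n2) ∈ I →
      (∀ i j, TH g i j ∈ I) ∧ ht g - 1 ∈ I := by
    intro I hI
    have h1 : ∀ i j, TH g i j ∈ I := by
      intro i j
      rw [hTH, Matrix.smul_apply, smul_eq_mul]
      exact I.mul_mem_right _ hI
    refine ⟨h1, ?_⟩
    have h2 : Bf (TH g) (TH g) ∈ I := by
      rw [Lib_Bf]
      exact I.add_mem (I.add_mem (I.mul_mem_right _ (h1 _ _)) (I.mul_mem_right _ (h1 _ _)))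
        (I.add_mem (I.mul_mem_right _ (h1 _ _)) (I.mul_mem_right _ (h1 _ _)))
    have h3 : ht g - 1 = (⅟(2 : R) * ⅟(2 : R) * (1 + y)) * Bf (TH g) (TH g) := by
      have h4 : (ht g - 1) * (ht g + 1) = ⅟(2 : R) * Bf (TH g) (TH g) := by
        linear_combination hsq
      have h5 : ⅟(2 : R) * (ht g + 1) = 1 + ⅟(2 : R) * (ht g - 1) := by
        linear_combination hh
      calc ht g - 1 = (ht g - 1) * ((1 + ⅟(2 : R) * (ht g - 1)) * (1 + y)) := by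
            rw [hxy, mul_one]
        _ = (ht g - 1) * ((⅟(2 : R) * (ht g + 1)) * (1 + y)) := by rw [h5]
        _ = ⅟(2 : R) * (1 + y) * ((ht g - 1) * (ht g + 1)) := by ring
        _ = ⅟(2 : R) * (1 + y) * (⅟(2 : R) * Bf (TH g) (TH g)) := by rw [h4]
        _ = (⅟(2 : R) * ⅟(2 : R) * (1 + y)) * Bf (TH g) (TH g) := by ring
    rw [h3]
    exact I.mul_mem_left _ h2
  apply hW
  · apply hI1
    intro i j
    obtain ⟨k1, k2⟩ := key I1 hm1
    have e : ((g : M2 R) - 1) i j = (ht g - 1) * (1 : M2 R) i j + TH g i j := by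
      have e1 := congrArg (fun M : M2 R => M i j) (Lib_decomp g)
      simp only [Matrix.add_apply, Matrix.smul_apply, smul_eq_mul] at e1
      simp only [Matrix.sub_apply]
      rw [e1]
      ring
    rw [e]
    exact I1.add_mem (I1.mul_mem_right _ k2) (k1 i j)
  · apply hI2
    intro i j
    obtain ⟨k1, k2⟩ := key I2 hm2
    have e : (((g⁻¹ : GL (Fin 2) R) : M2 R) - 1) i j = (ht g - 1) * (1 : M2 R) i j - TH g i j := by
      rw [Lib_inv J g hgS]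
      simp only [Matrix.sub_apply, Matrix.smul_apply, smul_eq_mul]
      ring
    rw [e]
    exact I2.sub_mem (I2.mul_mem_right _ k2) (k1 i j)

end Pool.Agent.PP2
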